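import Pool.Agent.V11135.Klarner.Fixed
import Pool.Agent.V11135.Klarner.Rational

/-!
# The generating function of the fixed polyominoes is not rational

Let `t(n)` be the number of fixed `n`-ominoes and `λ = lim t(n) ^ (1 / n)`.  The generating function
`T(z) = ∑ t(n) z ^ n` is not a rational function; the answer to Q1 is no.

Proof.  (a) Two `n`-ominoes `A`, `B`, where `A` has at least `√n` rows, can be glued in at least `√n`
ways: for every vertical displacement for which they share a row, push `B` from the right
towards `A` until its distance from `A` is exactly `2` and add one cell adjacent to both.  The result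
is a `(2n+1)`-omino with a cell whose removal leaves two components of size `n`; such a cell is unique
and so `A` and `B` can be recovered.  Hence `t(n) ^ 2 √n ≤ 18 t(2n+1)`.  As
`t(2n+1) ≤ λ ^ (2n+1)` by concatenation, `t(n) / λ ^ n → 0`.
(b) If `T` were rational, the sequence `u(n) = t(n) / λ ^ n` would satisfy a linear recurrence, and
the space spanned by its shifts would be finite-dimensional, invariant under the shift and consist
of null sequences.  Then some power of the shift is a contraction of this space and `u(n)` decays
exponentially along an arithmetic progression, contrary to `t(n) ^ (1 / n) → λ`.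
-/

set_option autoImplicit false

open Filter Topology

namespace Pool.Agent.Results.MP_66fa61_co.NotRational

open Pool.Agent.V11135.Klarner

/-- The generating function `T(z) = ∑_{n ≥ 1} t(n) z ^ n` of the fixed polyominoes (note that
`fixedOminoes 0 = 0`, as the empty set is not connected). -/
noncomputable def T : PowerSeries ℚ := PowerSeries.mk fun n => (fixedOminoes n : ℚ)

/-- (1) `T(z)` is not a rational function.
(2) `t(n) ^ 2 √n ≤ 18 t(2n+1)` for all `n`, and with `λ = lim t(n) ^ (1 / n)` one has
`t(n) / λ ^ n → 0`. -/
theorem result :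
    (¬ ∃ P Q : Polynomial ℚ, Q ≠ 0 ∧ (Q : PowerSeries ℚ) * T = (P : PowerSeries ℚ)) ∧
    (∀ n : ℕ, (fixedOminoes n : ℝ) ^ 2 * √(n : ℝ) ≤ 18 * fixedOminoes (2 * n + 1)) ∧
    (∃ lam : ℝ, 0 < lam ∧
      Tendsto (fun n : ℕ => (fixedOminoes n : ℝ) ^ (1 / (n : ℝ))) atTop (𝓝 lam) ∧
      Tendsto (fun n : ℕ => (fixedOminoes n : ℝ) / lam ^ n) atTop (𝓝 0)) := by
  refine ⟨?_, ?_, lam, lam_pos, ?_, ?_⟩
  · rintro ⟨P, Q, hQ, h⟩
    have hinj : Function.Injective (algebraMap ℚ ℝ) := (algebraMap ℚ ℝ).injective
    apply not_rational (P.map (algebraMap ℚ ℝ)) (Q.map (algebraMap ℚ ℝ))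
      ((Polynomial.map_ne_zero_iff hinj).2 hQ)
    have h1 := congrArg (PowerSeries.map (algebraMap ℚ ℝ)) h
    rw [map_mul, ← Polynomial.polynomial_map_coe, ← Polynomial.polynomial_map_coe] at h1
    rw [← h1]
    congr 1
    ext n
    simp [T, fixedOminoes_eq]
  · intro n
    rw [fixedOminoes_eq, fixedOminoes_eq]
    exact tt_sq n
  · simp only [fixedOminoes_eq]
    exact tendsto_tt
  · simp only [fixedOminoes_eq]
    exact tt_div_tendsto

end Pool.Agent.Results.MP_66fa61_co.NotRational
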